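import Pool.Agent.H51.TD5

/-! MP_e52bc6_co: the extremal total domination number of connected claw-free diamond-free
cubic graphs of order `n`. -/

namespace Pool.Agent.Results.MP_e52bc6_co.TotalDom

open Filter Topology Finset

/-- `S` is a total dominating set of `G`: every vertex has a neighbour in `S`. -/
def IsTDS {V : Type*} (G : SimpleGraph V) (S : Finset V) : Prop := ∀ v, ∃ w ∈ S, G.Adj v w

/-- The total domination number. -/
noncomputable def gammaT {V : Type*} (G : SimpleGraph V) : ℕ :=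
  sInf {k | ∃ S : Finset V, IsTDS G S ∧ S.card = k}

/-- Connected claw-free diamond-free cubic graphs. -/
structure InClass {V : Type*} (G : SimpleGraph V) : Prop where
  conn : G.Connected
  cubic : ∀ v, (G.neighborSet v).ncard = 3
  /-- no induced claw: three distinct neighbours of `v` are not pairwise nonadjacent -/
  clawFree : ∀ v a b c, G.Adj v a → G.Adj v b → G.Adj v c → a ≠ b → a ≠ c → b ≠ c →
    G.Adj a b ∨ G.Adj a c ∨ G.Adj b c
  /-- no induced diamond: if `a`, `b` are both adjacent to `c`, `d` and `c` is adjacent to `d`,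
  then `a` and `b` are equal or adjacent -/
  diamondFree : ∀ a b c d, G.Adj a c → G.Adj a d → G.Adj b c → G.Adj b d → G.Adj c d →
    a ≠ b → G.Adj a b

/-- The orders of graphs in the class. -/
def orders : Set ℕ := {n | ∃ G : SimpleGraph (Fin n), InClass G}

/-- The total domination numbers of the graphs of order `n` in the class. -/
def values (n : ℕ) : Set ℕ := {k | ∃ G : SimpleGraph (Fin n), InClass G ∧ gammaT G = k}

/-- `g(n)`, the maximum of the total domination number over the class. -/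
noncomputable def g (n : ℕ) : ℕ := sSup (values n)

/-- `c^*`, the limit superior of `g(n)/n` over the orders `n` of graphs in the class. -/
noncomputable def cstar : ℝ := limsup (fun n : ℕ => (g n : ℝ) / n) (atTop ⊓ 𝓟 orders)

theorem toH {V : Type*} {G : SimpleGraph V} (h : InClass G) : H51.TD.InClass G :=
  ⟨h.conn, h.cubic, h.clawFree, h.diamondFree⟩

theorem ofH {V : Type*} {G : SimpleGraph V} (h : H51.TD.InClass G) : InClass G :=
  ⟨h.conn, h.cubic, h.clawFree, h.diamondFree⟩

/-- Structure of the order. -/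
theorem order_of {n : ℕ} {G : SimpleGraph (Fin n)} (hG : InClass G) (h4 : n ≠ 4) :
    ∃ m, n = 3 * m ∧ Even m ∧ 2 ≤ m ∧
      ∃ S, IsTDS G S ∧ S.card ≤ m + 2 * ((m + 2) / 12) := by
  classical
  obtain ⟨B, _, T, rfl⟩ := H51.TD.exists_TS G (toH hG) (by simpa using h4)
  have hn : n = 3 * Fintype.card B := by simpa using T.card_V
  have hev : Even n := by
    have := H168DD.even_of_inv _ (univ : Finset (Fin n)) T.σ rfl (by
      intro x _
      exact ⟨mem_univ _, T.inv x, fun h => T.ne x (congrArg T.π h)⟩)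
    simpa using this
  have hm : Even (Fintype.card B) := by
    rw [Nat.even_iff] at hev ⊢
    omega
  have hpos : 0 < n := by
    obtain ⟨v⟩ := hG.conn.nonempty
    exact lt_of_le_of_lt (Nat.zero_le _) v.2
  obtain ⟨S, h1, h2⟩ := T.upper hG.conn hm
  refine ⟨Fintype.card B, hn, hm, ?_, S, h1, h2⟩
  obtain ⟨k, hk⟩ := hm
  omega

theorem gammaT_le {V : Type*} {G : SimpleGraph V} {S : Finset V} (h : IsTDS G S) :
    gammaT G ≤ S.card := Nat.sInf_le ⟨S, h, rfl⟩

theorem upper {n : ℕ} {G : SimpleGraph (Fin n)} (hG : InClass G) (h4 : n ≠ 4) :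
    gammaT G ≤ n / 3 + 2 * ((n + 6) / 36) := by
  obtain ⟨m, rfl, _, _, S, hS, hc⟩ := order_of hG h4
  refine (gammaT_le hS).trans (hc.trans ?_)
  omega

theorem lower (n m : ℕ) (hn : n = 3 * m) (hm : Even m) (h2 : 2 ≤ m) :
    ∃ G : SimpleGraph (Fin n), InClass G ∧ gammaT G = n / 3 + 2 * ((n + 6) / 36) := by
  subst hn
  obtain ⟨G, hG, hS⟩ := H51.TD.family m hm h2
  refine ⟨G, ofH hG, le_antisymm (upper (ofH hG) (by omega)) ?_⟩
  obtain ⟨_, _, _, _, S, hS', _⟩ := order_of (ofH hG) (by omega)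
  refine le_csInf ⟨_, S, hS', rfl⟩ ?_
  rintro k ⟨S, h1, rfl⟩
  have := hS S h1
  omega

theorem greatest (n : ℕ) (h6 : 6 ∣ n) (h0 : 0 < n) :
    IsGreatest (values n) (n / 3 + 2 * ((n + 6) / 36)) := by
  obtain ⟨j, rfl⟩ := h6
  constructor
  · exact lower (6 * j) (2 * j) (by ring) (even_two_mul j) (by omega)
  · rintro k ⟨G, hG, rfl⟩
    exact upper hG (by omega)

theorem k4 : InClass (⊤ : SimpleGraph (Fin 4)) := by
  refine ⟨?_, ?_, ?_, ?_⟩
  · exact SimpleGraph.connected_top
  · intro v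
    have : (⊤ : SimpleGraph (Fin 4)).neighborSet v = {v}ᶜ := by
      ext w; simp [eq_comm]
    rw [this, Set.ncard_compl]
    simp
  · intro v a b c _ _ _ h _ _
    exact Or.inl h
  · intro a b c d _ _ _ _ _ h
    exact h

/-- **Main theorem.** (1) The class has a graph of order `n` exactly when `n = 4` or `n` is a
positive multiple of `6`. (2) For each positive multiple `n` of `6` the maximum `g(n)` of the
total domination number is attained and equals `n/3 + 2 * ⌊(n+6)/36⌋`. (3) `c^* = 7/18`. -/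
theorem result :
    (∀ n : ℕ, n ∈ orders ↔ (n = 4 ∨ (6 ∣ n ∧ 0 < n))) ∧
    (∀ n : ℕ, 6 ∣ n → 0 < n →
      IsGreatest (values n) (g n) ∧ g n = n / 3 + 2 * ((n + 6) / 36)) ∧
    cstar = 7 / 18 := by
  have hord : ∀ n : ℕ, n ∈ orders ↔ (n = 4 ∨ (6 ∣ n ∧ 0 < n)) := by
    intro n
    constructor
    · rintro ⟨G, hG⟩
      by_cases h4 : n = 4
      · exact Or.inl h4
      · right
        obtain ⟨m, rfl, ⟨k, hk⟩, h2, _⟩ := order_of hG h4
        constructor
        · exact ⟨k, by omega⟩
        · omega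
    · rintro (rfl | ⟨h6, h0⟩)
      · exact ⟨⊤, k4⟩
      · obtain ⟨⟨G, hG, _⟩, _⟩ := greatest n h6 h0
        exact ⟨G, hG⟩
  have hg : ∀ n : ℕ, 6 ∣ n → 0 < n → g n = n / 3 + 2 * ((n + 6) / 36) :=
    fun n h6 h0 => (greatest n h6 h0).csSup_eq
  refine ⟨hord, ?_, ?_⟩
  · intro n h6 h0
    refine ⟨?_, hg n h6 h0⟩
    rw [hg n h6 h0]; exact greatest n h6 h0
  · have hev : ∀ᶠ n in atTop ⊓ 𝓟 orders, 6 ∣ n ∧ 0 < n := by
      rw [eventually_inf_principal]
      filter_upwards [eventually_ge_atTop 5] with n hn hn'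
      rcases (hord n).1 hn' with h | h
      · omega
      · exact h
    have hne : (atTop ⊓ 𝓟 orders : Filter ℕ).NeBot := by
      rw [← frequently_mem_iff_neBot, frequently_atTop]
      intro a
      exact ⟨6 * (a + 1), by omega, (hord _).2 (Or.inr ⟨⟨a + 1, rfl⟩, by omega⟩)⟩
    have ht : Tendsto (fun n : ℕ => (g n : ℝ) / n) (atTop ⊓ 𝓟 orders) (𝓝 (7 / 18)) := by
      have h2 : Tendsto (fun n : ℕ => (2 : ℝ) / n) (atTop ⊓ 𝓟 orders) (𝓝 0) :=
        (tendsto_const_div_atTop_nhds_zero_nat 2).mono_left inf_le_left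
      have hlo : Tendsto (fun n : ℕ => (7 / 18 : ℝ) - 2 / n) (atTop ⊓ 𝓟 orders)
          (𝓝 (7 / 18)) := by
        simpa using h2.const_sub (7 / 18 : ℝ)
      have hhi : Tendsto (fun n : ℕ => (7 / 18 : ℝ) + 2 / n) (atTop ⊓ 𝓟 orders)
          (𝓝 (7 / 18)) := by
        simpa using h2.const_add (7 / 18 : ℝ)
      refine tendsto_of_tendsto_of_tendsto_of_le_of_le' hlo hhi ?_ ?_
      · filter_upwards [hev] with n hn
        have hn0 : (0 : ℝ) < n := by exact_mod_cast hn.2
        rw [hg n hn.1 hn.2, le_div_iff₀ hn0, sub_mul, div_mul_cancel₀ _ hn0.ne']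
        obtain ⟨j, rfl⟩ := hn.1
        have h1 : 36 * ((6 * j + 6) / 36) + 36 ≥ 6 * j + 6 := by omega
        have h3 : 6 * j / 3 = 2 * j := by omega
        rw [h3]
        have h1' : (36 : ℝ) * (((6 * j + 6) / 36 : ℕ) : ℝ) + 36 ≥ 6 * j + 6 := by exact_mod_cast h1
        push_cast at h1' ⊢
        linarith
      · filter_upwards [hev] with n hn
        have hn0 : (0 : ℝ) < n := by exact_mod_cast hn.2
        rw [hg n hn.1 hn.2, div_le_iff₀ hn0, add_mul, div_mul_cancel₀ _ hn0.ne']
        obtain ⟨j, rfl⟩ := hn.1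
        have h1 : 36 * ((6 * j + 6) / 36) ≤ 6 * j + 6 := by omega
        have h3 : 6 * j / 3 = 2 * j := by omega
        rw [h3]
        have h1' : (36 : ℝ) * (((6 * j + 6) / 36 : ℕ) : ℝ) ≤ 6 * j + 6 := by exact_mod_cast h1
        push_cast at h1' ⊢
        linarith
    exact ht.limsup_eq

end Pool.Agent.Results.MP_e52bc6_co.TotalDom
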